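import Pool.Agent.H97.ERW.Couple

set_option autoImplicit false

/-!
# Excited random walks which do not escape have speed zero

Let `X` be an excited random walk on the lattice of dimension `d` in a random cookie environment
whose stacks of cookies are independent and identically distributed. Almost surely, if the norm of
`X n` does not tend to infinity, then `(X n · ℓ) / n` tends to `0` for every vector `ℓ`. No
ellipticity is needed.

Outline. The walk has the law of a walk driven by independent and identically distributed stacks of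
arrows (`Couple.lean`). For such a walk and a coordinate direction `e` one shows that, almost
surely, unless `X n · e` tends to infinity, the upper limit of `(X n · e) / n` is at most `0`
(`Arrow.lean`): if the walk reaches level `M` by time `C M` for infinitely many `M`, a positive
proportion of the levels `m < M` is such that after the first visit to level `m` all further levels
are reached quickly and level `m` is visited a bounded number of times before level `m + L`
is reached. Given the stacks to the left of level `m`, the probability of this event decreases, as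
`L` grows, to that of an event on which the walk stays eventually to the right of level `m`; as the
space of stacks is compact, the convergence is uniform by Dini's theorem. By martingale convergence
the limit probabilities are small for large `m` unless `X n · e` tends to infinity, and an
exponential moment bound in each residue class of levels modulo `L` gives a contradiction.
-/

open Filter Topology MeasureTheory ProbabilityTheory

namespace Pool.Agent.Results.MP_f4733e_pr.ZeroSpeedNoEL

open Pool.Agent.H97.ERW

variable {d : ℕ}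

/-- The coordinate in the direction `s`. -/
def lev (s : Dir d) : Site d →+ ℤ :=
  if s.2 then Pi.evalAddMonoidHom (fun _ : Fin d => ℤ) s.1
  else -Pi.evalAddMonoidHom (fun _ : Fin d => ℤ) s.1

lemma lev_apply (s : Dir d) (x : Site d) : lev s x = if s.2 then x s.1 else -x s.1 := by
  unfold lev
  split_ifs <;> simp

lemma lev_unit_le (s t : Dir d) : lev s (unit t) ≤ 1 := by
  rw [lev_apply]
  unfold unit
  by_cases h : s.1 = t.1
  · rw [h, Pi.single_eq_same]
    split_ifs <;> omega
  · rw [Pi.single_eq_of_ne h]
    split_ifs <;> omega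

/-- Paths which in each direction tend to infinity or have speed at most zero. -/
def Good (d : ℕ) : Set (ℕ → Site d) :=
  {x | ∀ s : Dir d, (∀ b : ℤ, ∃ N : ℕ, ∀ n : ℕ, N ≤ n → b ≤ lev s (x n)) ∨
    ∀ C : ℕ, ∃ N : ℕ, ∀ n : ℕ, N ≤ n → ((C : ℤ) + 1) * lev s (x n) ≤ n}

lemma measurableSet_Good : MeasurableSet (Good d) := by
  have hc : ∀ (s : Dir d) (n : ℕ), Measurable (fun x : ℕ → Site d => lev s (x n)) := by
    intro s n
    have h1 : Measurable (fun y : Site d => lev s y) := measurable_of_countable _
    exact h1.comp (measurable_pi_apply n)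
  have h : Good d = ⋂ s : Dir d,
      ((⋂ b : ℤ, ⋃ N : ℕ, ⋂ n : ℕ, ⋂ _ : N ≤ n,
        (fun x : ℕ → Site d => lev s (x n)) ⁻¹' (Set.Ici b)) ∪
      (⋂ C : ℕ, ⋃ N : ℕ, ⋂ n : ℕ, ⋂ _ : N ≤ n,
        (fun x : ℕ → Site d => lev s (x n)) ⁻¹' {y : ℤ | ((C : ℤ) + 1) * y ≤ n})) := by
    ext x
    simp only [Good, Set.mem_ofPred_eq, Set.mem_iInter, Set.mem_union, Set.mem_iUnion,
      Set.mem_preimage, Set.mem_Ici]
  rw [h]
  refine MeasurableSet.iInter fun s => MeasurableSet.union ?_ ?_
  · exact MeasurableSet.iInter fun b => MeasurableSet.iUnion fun N => MeasurableSet.iInter fun n =>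
      MeasurableSet.iInter fun _ => hc s n (MeasurableSet.of_discrete)
  · exact MeasurableSet.iInter fun b => MeasurableSet.iUnion fun N => MeasurableSet.iInter fun n =>
      MeasurableSet.iInter fun _ => hc s n (MeasurableSet.of_discrete)

/-- Almost surely, in each direction the walk tends to infinity or has speed at most zero. -/
theorem ae_good {Ω : Type*} [MeasurableSpace Ω] {P : Measure Ω} {ω : Ω → Env d}
    {X : ℕ → Ω → Site d} (hX : IsERW P ω X) (hiid : IIDStacks P ω) :
    ∀ᵐ a ∂P, (fun n => X n a) ∈ Good d := by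
  have hprob := hX.prob
  have hne : Nonempty (Dir d) := by
    by_contra hcon
    rw [not_nonempty_iff] at hcon
    obtain ⟨a, ha⟩ := hX.cookie_sum.exists
    have := ha 0 0
    simp at this
  obtain ⟨f, hf, hfp⟩ := exists_step_function (d := d)
  obtain ⟨Q, hQ, hlaw⟩ := law_arrows hX hiid hf
  have m1 : Measurable (fun (a : Ω) (k : ℕ) => X k a) := by
    have := hX.measurable_walk
    exact measurable_pi_lambda _ this
  have m3 := measurable_arrows hf hX.measurable_env
  have m2 : Measurable (fun (p : Ω × Unif d) (k : ℕ) => pos unit k (arrows f ω p)) := by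
    refine measurable_pi_lambda _ fun k => ?_
    exact (continuous_pos unit k).measurable.comp m3
  have h1 : ∀ᵐ ξ ∂(mu (Site d) Q), (fun k => pos unit k ξ) ∈ Good d := by
    have h2 : ∀ᵐ ξ ∂(mu (Site d) Q), ∀ s : Dir d,
        ¬ Tendsto (lp unit (lev s) ξ) atTop atTop →
        ∀ c : ℝ, 0 < c → ∀ᶠ n : ℕ in atTop, (lp unit (lev s) ξ n : ℝ) ≤ c * n := by
      rw [ae_all_iff]
      intro s
      exact arrow_walk unit (lev s) Q (fun t => lev_unit_le s t)
    filter_upwards [h2] with ξ hξ s
    by_cases h3 : Tendsto (lp unit (lev s) ξ) atTop atTop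
    · left
      intro b
      exact (tendsto_atTop_atTop.1 h3 b)
    · right
      intro C
      have h4 := hξ s h3 (1 / ((C : ℝ) + 1)) (by positivity)
      rw [eventually_atTop] at h4
      obtain ⟨N, hN⟩ := h4
      refine ⟨N, fun n hn => ?_⟩
      have h5 := hN n hn
      have h6 : ((C : ℝ) + 1) * (lp unit (lev s) ξ n : ℝ) ≤ n := by
        have h7 : (0 : ℝ) < (C : ℝ) + 1 := by positivity
        calc ((C : ℝ) + 1) * (lp unit (lev s) ξ n : ℝ)
            ≤ ((C : ℝ) + 1) * (1 / ((C : ℝ) + 1) * n) := by gcongr
          _ = n := by field_simp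
      exact_mod_cast h6
  rw [← hlaw] at h1
  have h2 := ae_of_ae_map m3.aemeasurable h1
  have h3 := (ae_map_iff m2.aemeasurable measurableSet_Good).2 h2
  rw [← law_walk hX hf hfp] at h3
  exact ae_of_ae_map m1.aemeasurable h3

lemma coord_le_eucl (x : Site d) (s : Dir d) : ((lev s x : ℤ) : ℝ) ≤ eucl x := by
  have h1 : |(x s.1 : ℝ)| ≤ eucl x := by
    unfold eucl
    rw [← Real.sqrt_sq_eq_abs]
    apply Real.sqrt_le_sqrt
    exact Finset.single_le_sum (f := fun j => (x j : ℝ) ^ 2) (fun j _ => sq_nonneg _)
      (Finset.mem_univ s.1)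
  rw [lev_apply]
  split_ifs
  · exact (le_abs_self _).trans h1
  · push_cast
    exact (neg_le_abs _).trans h1

lemma tendsto_of_good {x : ℕ → Site d} (hx : x ∈ Good d)
    (hnt : ¬ Tendsto (fun n => eucl (x n)) atTop atTop) (j : Fin d) :
    Tendsto (fun n : ℕ => (x n j : ℝ) / n) atTop (𝓝 0) := by
  have h1 : ∀ (s : Dir d) (C : ℕ), ∃ N : ℕ, ∀ n : ℕ, N ≤ n →
      ((C : ℤ) + 1) * lev s (x n) ≤ n := by
    intro s
    rcases hx s with h | h
    · exfalso
      apply hnt
      have h2 : Tendsto (fun n => lev s (x n)) atTop atTop := tendsto_atTop_atTop.2 h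
      have h3 : Tendsto (fun n => ((lev s (x n) : ℤ) : ℝ)) atTop atTop :=
        tendsto_intCast_atTop_atTop.comp h2
      exact tendsto_atTop_mono (fun n => coord_le_eucl (x n) s) h3
    · exact h
  rw [Metric.tendsto_atTop]
  intro ε hε
  obtain ⟨C, hC⟩ := exists_nat_one_div_lt hε
  obtain ⟨N1, hN1⟩ := h1 (j, true) C
  obtain ⟨N2, hN2⟩ := h1 (j, false) C
  refine ⟨max (max N1 N2) 1, fun n hn => ?_⟩
  have hn1 : N1 ≤ n := by omega
  have hn2 : N2 ≤ n := by omega
  have hn3 : 1 ≤ n := by omega
  have a1 := hN1 n hn1
  have a2 := hN2 n hn2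
  rw [lev_apply] at a1 a2
  simp only [if_true] at a1
  simp only [Bool.false_eq_true, if_false] at a2
  have b1 : ((C : ℝ) + 1) * (x n j : ℝ) ≤ n := by exact_mod_cast a1
  have b2 : ((C : ℝ) + 1) * (-(x n j : ℝ)) ≤ n := by exact_mod_cast a2
  have hnpos : (0 : ℝ) < n := by exact_mod_cast hn3
  have hCpos : (0 : ℝ) < (C : ℝ) + 1 := by positivity
  rw [Real.dist_eq, sub_zero, abs_div, abs_of_pos hnpos]
  refine lt_of_le_of_lt ?_ hC
  rw [div_le_div_iff₀ hnpos hCpos, one_mul, mul_comm]
  have h5 : ((C : ℝ) + 1) * |(x n j : ℝ)| = |((C : ℝ) + 1) * (x n j : ℝ)| := by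
    rw [abs_mul, abs_of_pos hCpos]
  rw [h5, abs_le]
  constructor
  · linarith
  · exact b1

/-- **Zero speed of excited random walks which do not escape.** Let `X` be an excited random walk
started at the origin in a random cookie environment `ω` with independent and identically
distributed stacks. Almost surely, if `|X n|` does not tend to infinity then `(X n · ℓ) / n` tends
to `0` for all vectors `ℓ`. -/
theorem result {Ω : Type*} [MeasurableSpace Ω] {d : ℕ} (P : Measure Ω) (ω : Ω → Env d)
    (X : ℕ → Ω → Site d) (hX : IsERW P ω X) (hiid : IIDStacks P ω) :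
    ∀ᵐ a ∂P, ¬ Tendsto (fun n => eucl (X n a)) atTop atTop →
      ∀ ℓ : Fin d → ℝ, Tendsto (fun n : ℕ => (∑ j, (X n a j : ℝ) * ℓ j) / n) atTop (𝓝 0) := by
  filter_upwards [ae_good hX hiid] with a ha hnt ℓ
  have h1 : ∀ j, Tendsto (fun n : ℕ => (X n a j : ℝ) / n) atTop (𝓝 0) := fun j =>
    tendsto_of_good ha hnt j
  have h2 : Tendsto (fun n : ℕ => ∑ j, (X n a j : ℝ) / n * ℓ j) atTop (𝓝 (∑ j, 0 * ℓ j)) :=
    tendsto_finsetSum _ fun j _ => (h1 j).mul_const (ℓ j)
  simp only [zero_mul, Finset.sum_const_zero] at h2
  refine h2.congr fun n => ?_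
  rw [Finset.sum_div]
  refine Finset.sum_congr rfl fun j _ => ?_
  ring

end Pool.Agent.Results.MP_f4733e_pr.ZeroSpeedNoEL
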